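import Pool.Agent.Helper13.ASD.Core

/-!
# Failure of the Atkin and Swinnerton-Dyer type congruences for `E_k / (j - j(C))^r`

The conjectured congruences fail for the curve `C : y^2 + y = x^3 - x` (conductor `37`,
`j(C) = 110592/37`, `a_5(C) = -2`) at the good ordinary prime `p = 5`, for `k = 6`, `r = 1`, `n = 1`,
`l = 5`: the left side has `5`-adic valuation `14`, less than `(k-1)l - (k-3)k/2 - r = 15`.

The coefficients up to `q^3125` modulo `5^15` are computed in the kernel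
(`Pool.Agent.Helper13.ASD`).
-/

namespace Pool.Agent.Results.MP_fb382b_nt.PrimeFive

open Finset

/-- The level-one Eisenstein series `E_k = 1 - (2k/B_k) ∑_{n ≥ 1} σ_{k-1}(n) q^n`, as a power series
in `q` over `ℚ`. -/
noncomputable def eisenstein (k : ℕ) : PowerSeries ℚ :=
  PowerSeries.mk fun n => if n = 0 then 1 else
    -(2 * (k : ℚ) / bernoulli k) * (ArithmeticFunction.sigma (k - 1) n : ℚ)

/-- `Δ = (E_4^3 - E_6^2) / 1728`, as a power series in `q`. -/
noncomputable def discr : PowerSeries ℚ :=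
  PowerSeries.C (1 / 1728 : ℚ) * (eisenstein 4 ^ 3 - eisenstein 6 ^ 2)

/-- The modular invariant `j = E_4^3 / Δ`, as a Laurent series in `q`. -/
noncomputable def jSeries : LaurentSeries ℚ :=
  ((eisenstein 4 ^ 3 : PowerSeries ℚ) : LaurentSeries ℚ) /
    ((discr : PowerSeries ℚ) : LaurentSeries ℚ)

/-- The `q`-expansion of `F = E_k / (j - j₀)^r`. -/
noncomputable def formF (k r : ℕ) (j₀ : ℚ) : LaurentSeries ℚ :=
  ((eisenstein k : PowerSeries ℚ) : LaurentSeries ℚ) / (jSeries - HahnSeries.C j₀) ^ r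

/-- The coefficient `a_x(f)` of `q^x`; it is `0` when the rational number `x` is not an integer. -/
noncomputable def coeffAt (f : LaurentSeries ℚ) (x : ℚ) : ℚ :=
  if x.den = 1 then f.coeff x.num else 0

/-- `W`, a Weierstrass equation with integer coefficients, is an equation of `C/ℚ` with good
reduction at `p` (its discriminant is prime to `p`). -/
def IsGoodModel (C : WeierstrassCurve ℚ) (p : ℕ) (W : WeierstrassCurve ℤ) : Prop :=
  (∃ u : WeierstrassCurve.VariableChange ℚ, u • C = W.map (Int.castRingHom ℚ)) ∧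
    ¬ (p : ℤ) ∣ W.Δ

/-- Number of points over `𝔽_p` of the reduction of `W` modulo `p`: the point at infinity and the
solutions of the reduced Weierstrass equation. -/
def pointCount (W : WeierstrassCurve ℤ) (p : ℕ) [NeZero p] : ℕ :=
  1 + (Finset.univ.filter fun P : ZMod p × ZMod p =>
    P.2 ^ 2 + (W.a₁ : ZMod p) * P.1 * P.2 + (W.a₃ : ZMod p) * P.2
      = P.1 ^ 3 + (W.a₂ : ZMod p) * P.1 ^ 2 + (W.a₄ : ZMod p) * P.1 + (W.a₆ : ZMod p)).card

/-- `a_p = p + 1 - #C(𝔽_p)`. -/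
def frobTrace (W : WeierstrassCurve ℤ) (p : ℕ) [NeZero p] : ℤ :=
  (p : ℤ) + 1 - (pointCount W p : ℤ)

/-- `c 0, …, c (k-1)` are the coefficients of
`P_p(X) = ∏_{i=0}^{k-2} (X - α^{k-2-i} β^i) = ∑_{i=0}^{k-1} c_i X^{k-1-i}`, where `α`, `β` are the
roots of `X^2 - a X + p`. -/
def IsFrobCoeffs (k p : ℕ) (a : ℤ) (c : ℕ → ℤ) : Prop :=
  ∃ α β : ℂ, α + β = a ∧ α * β = p ∧
    ∏ i ∈ range (k - 1), (Polynomial.X - Polynomial.C (α ^ (k - 2 - i) * β ^ i))
      = ∑ i ∈ range k, Polynomial.C (c i : ℂ) * Polynomial.X ^ (k - 1 - i)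

/-- `x ≡ 0 (mod p^e)` for rational `x` and an integer `e`: `v_p(x) ≥ e`. -/
def ModZero (p : ℕ) (e : ℤ) (x : ℚ) : Prop := x = 0 ∨ e ≤ padicValRat p x

theorem eis4 : eisenstein 4 = PowerSeries.map (Int.castRingHom ℚ)
    (1 + 240 * PowerSeries.mk fun n => (ArithmeticFunction.sigma 3 n : ℤ)) := by
  have hb : bernoulli 4 = -1 / 30 := by
    rw [bernoulli_eq_bernoulli'_of_ne_one (by norm_num), bernoulli'_four]
  ext n
  rw [eisenstein, PowerSeries.coeff_mk, PowerSeries.coeff_map, map_add, PowerSeries.coeff_one,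
    show (240 : PowerSeries ℤ) = PowerSeries.C (240 : ℤ) by rfl, PowerSeries.coeff_C_mul,
    PowerSeries.coeff_mk, hb]
  by_cases h : n = 0
  · simp [h]
  · simp [h]
    norm_num

theorem eis6 : eisenstein 6 = PowerSeries.map (Int.castRingHom ℚ)
    (1 - 504 * PowerSeries.mk fun n => (ArithmeticFunction.sigma 5 n : ℤ)) := by
  have hb5 : bernoulli' 5 = 0 := bernoulli'_eq_zero_of_odd (by decide) (by norm_num)
  have hb : bernoulli 6 = 1 / 42 := by
    rw [bernoulli_eq_bernoulli'_of_ne_one (by norm_num), bernoulli'_def]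
    simp [Finset.sum_range_succ, hb5, Nat.choose]
    norm_num
  ext n
  rw [eisenstein, PowerSeries.coeff_mk, PowerSeries.coeff_map, map_sub, PowerSeries.coeff_one,
    show (504 : PowerSeries ℤ) = PowerSeries.C (504 : ℤ) by rfl, PowerSeries.coeff_C_mul,
    PowerSeries.coeff_mk, hb]
  by_cases h : n = 0
  · simp [h]
  · simp [h]
    norm_num

/-- `E_4` over `ℤ`. -/
noncomputable def E4Z : PowerSeries ℤ :=
  1 + 240 * PowerSeries.mk fun n => (ArithmeticFunction.sigma 3 n : ℤ)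

/-- `E_6` over `ℤ`. -/
noncomputable def E6Z : PowerSeries ℤ :=
  1 - 504 * PowerSeries.mk fun n => (ArithmeticFunction.sigma 5 n : ℤ)

/-- Denominator over `ℤ`. -/
noncomputable def DZ : PowerSeries ℤ := 110592 * E6Z ^ 2 - 46656 * E4Z ^ 3

/-- Numerator over `ℤ`. -/
noncomputable def NZ : PowerSeries ℤ := 37 * E6Z * (E4Z ^ 3 - E6Z ^ 2)

theorem cc_E4Z : PowerSeries.constantCoeff E4Z = 1 := by
  rw [E4Z, map_add, map_one, map_mul, ← PowerSeries.coeff_zero_eq_constantCoeff_apply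
    (PowerSeries.mk _), PowerSeries.coeff_mk]
  simp

theorem cc_E6Z : PowerSeries.constantCoeff E6Z = 1 := by
  rw [E6Z, map_sub, map_one, map_mul, ← PowerSeries.coeff_zero_eq_constantCoeff_apply
    (PowerSeries.mk _), PowerSeries.coeff_mk]
  simp

theorem cc_DZ : PowerSeries.constantCoeff DZ = 63936 := by
  rw [DZ, map_sub, map_mul, map_mul, map_pow, map_pow, cc_E4Z, cc_E6Z,
    show (110592 : PowerSeries ℤ) = PowerSeries.C (110592 : ℤ) by rfl,
    show (46656 : PowerSeries ℤ) = PowerSeries.C (46656 : ℤ) by rfl,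
    PowerSeries.constantCoeff_C, PowerSeries.constantCoeff_C]
  norm_num

/-- The coefficient of `q` of `E_4^3 - E_6^2` is not zero. -/
theorem sub_ne_zero : E4Z ^ 3 - E6Z ^ 2 ≠ 0 := by
  intro h
  have h1 := congrArg (PowerSeries.coeff 1) h
  have e4 : PowerSeries.coeff 1 E4Z = 240 := by
    rw [E4Z, map_add, PowerSeries.coeff_one,
      show (240 : PowerSeries ℤ) = PowerSeries.C (240 : ℤ) by rfl, PowerSeries.coeff_C_mul,
      PowerSeries.coeff_mk]
    simp
  have e6 : PowerSeries.coeff 1 E6Z = -504 := by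
    rw [E6Z, map_sub, PowerSeries.coeff_one,
      show (504 : PowerSeries ℤ) = PowerSeries.C (504 : ℤ) by rfl, PowerSeries.coeff_C_mul,
      PowerSeries.coeff_mk]
    simp
  rw [map_sub, PowerSeries.coeff_one_pow, PowerSeries.coeff_one_pow, e4, e6, cc_E4Z, cc_E6Z,
    map_zero] at h1
  norm_num at h1

/-- The series `F` over `ℚ`. -/
noncomputable def FQ : PowerSeries ℚ :=
  PowerSeries.map (Int.castRingHom ℚ) NZ * (PowerSeries.map (Int.castRingHom ℚ) DZ)⁻¹

theorem FQ_mul : FQ * PowerSeries.map (Int.castRingHom ℚ) DZ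
    = PowerSeries.map (Int.castRingHom ℚ) NZ := by
  rw [FQ, mul_assoc, PowerSeries.inv_mul_cancel, mul_one]
  rw [← PowerSeries.coeff_zero_eq_constantCoeff_apply, PowerSeries.coeff_map,
    PowerSeries.coeff_zero_eq_constantCoeff_apply, cc_DZ]
  norm_num

theorem formF_eq : formF 6 1 (110592 / 37) = ((FQ : PowerSeries ℚ) : LaurentSeries ℚ) := by
  set φ : PowerSeries ℤ →+* LaurentSeries ℚ :=
    (HahnSeries.ofPowerSeries ℤ ℚ).comp (PowerSeries.map (Int.castRingHom ℚ)) with hφ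
  have hinj : Function.Injective φ := by
    intro a b hab
    have h1 : PowerSeries.map (Int.castRingHom ℚ) a = PowerSeries.map (Int.castRingHom ℚ) b :=
      HahnSeries.ofPowerSeries_injective hab
    exact PowerSeries.map_injective (Int.castRingHom ℚ) Int.cast_injective h1
  have hF : ((FQ : PowerSeries ℚ) : LaurentSeries ℚ) * φ DZ = φ NZ := by
    have := congrArg (HahnSeries.ofPowerSeries ℤ ℚ) FQ_mul
    rwa [map_mul] at this
  have hDZ : φ DZ ≠ 0 := by
    intro h
    have : DZ = 0 := hinj (by rw [h, map_zero])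
    have h2 := cc_DZ
    rw [this, map_zero] at h2
    norm_num at h2
  have hsub : φ (E4Z ^ 3 - E6Z ^ 2) ≠ 0 := by
    intro h
    exact sub_ne_zero (hinj (by rw [h, map_zero]))
  have e4 : ((eisenstein 4 : PowerSeries ℚ) : LaurentSeries ℚ) = φ E4Z := by
    rw [eis4]; rfl
  have e6 : ((eisenstein 6 : PowerSeries ℚ) : LaurentSeries ℚ) = φ E6Z := by
    rw [eis6]; rfl
  have hC : ∀ x : ℚ, HahnSeries.C (Γ := ℤ) x = algebraMap ℚ (LaurentSeries ℚ) x := fun x =>
    DFunLike.congr_fun (RingHom.ext_rat (HahnSeries.C (Γ := ℤ) (R := ℚ))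
      (algebraMap ℚ (LaurentSeries ℚ))) x
  have hd : ((discr : PowerSeries ℚ) : LaurentSeries ℚ)
      = algebraMap ℚ (LaurentSeries ℚ) (1 / 1728) * (φ E4Z ^ 3 - φ E6Z ^ 2) := by
    rw [discr, map_mul, map_sub, map_pow, map_pow, e4, e6]
    rw [← hC]
    exact congrArg (· * _) (HahnSeries.ofPowerSeries_C _)
  have hj : jSeries = φ E4Z ^ 3 / (algebraMap ℚ (LaurentSeries ℚ) (1 / 1728) *
      (φ E4Z ^ 3 - φ E6Z ^ 2)) := by
    rw [jSeries, hd, map_pow, e4]
  rw [map_sub, map_pow, map_pow] at hsub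
  have hDZ2 : φ DZ = 110592 * φ E6Z ^ 2 - 46656 * φ E4Z ^ 3 := by
    rw [DZ]
    simp only [map_sub, map_mul, map_pow]
    congr 2 <;> exact map_ofNat φ _
  have hNZ2 : φ NZ = 37 * φ E6Z * (φ E4Z ^ 3 - φ E6Z ^ 2) := by
    rw [NZ]
    simp only [map_sub, map_mul, map_pow]
    congr 2
    exact map_ofNat φ _
  rw [formF, pow_one, hj, e6, hC]
  rw [hDZ2] at hDZ hF
  rw [hNZ2] at hF
  have h1728 : algebraMap ℚ (LaurentSeries ℚ) (1 / 1728) = 1 / 1728 := by
    rw [map_div₀, map_one, map_ofNat]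
  have h37 : algebraMap ℚ (LaurentSeries ℚ) (110592 / 37) = 110592 / 37 := by
    rw [map_div₀, map_ofNat, map_ofNat]
  rw [h1728, h37]
  have hchar : CharZero (LaurentSeries ℚ) := algebraRat.charZero _
  have hden : φ E4Z ^ 3 / (1 / 1728 * (φ E4Z ^ 3 - φ E6Z ^ 2)) - 110592 / 37
      = (110592 * φ E6Z ^ 2 - 46656 * φ E4Z ^ 3) / (37 * (φ E4Z ^ 3 - φ E6Z ^ 2)) := by
    field_simp
    ring
  rw [hden, div_div_eq_mul_div, div_eq_iff hDZ, hF]
  ring

theorem fact5 : Fact (Nat.Prime 5) := ⟨by norm_num⟩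

attribute [local instance] fact5

/-- `F` over `ℤ_5`. -/
theorem exists_padic : ∃ G : PowerSeries ℤ_[5],
    G * PowerSeries.map (Int.castRingHom ℤ_[5]) DZ = PowerSeries.map (Int.castRingHom ℤ_[5]) NZ := by
  have hunit : IsUnit (PowerSeries.map (Int.castRingHom ℤ_[5]) DZ) := by
    rw [PowerSeries.isUnit_iff_constantCoeff, ← PowerSeries.coeff_zero_eq_constantCoeff_apply,
      PowerSeries.coeff_map, PowerSeries.coeff_zero_eq_constantCoeff_apply, cc_DZ,
      PadicInt.isUnit_iff]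
    have : (Int.castRingHom ℤ_[5]) 63936 = ((63936 : ℤ) : ℤ_[5]) := rfl
    rw [this, PadicInt.norm_intCast_eq_one_iff]
    norm_num
  obtain ⟨u, hu⟩ := hunit
  refine ⟨PowerSeries.map (Int.castRingHom ℤ_[5]) NZ * ↑u⁻¹, ?_⟩
  rw [mul_assoc, ← hu, Units.inv_mul, mul_one]

theorem map_map_Q (P : PowerSeries ℤ) :
    PowerSeries.map (Rat.castHom ℚ_[5]) (PowerSeries.map (Int.castRingHom ℚ) P)
      = PowerSeries.map (Int.castRingHom ℚ_[5]) P := by
  ext n
  simp

theorem map_map_Z (P : PowerSeries ℤ) :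
    PowerSeries.map (PadicInt.Coe.ringHom (p := 5))
      (PowerSeries.map (Int.castRingHom ℤ_[5]) P)
      = PowerSeries.map (Int.castRingHom ℚ_[5]) P := by
  ext n
  simp

theorem map_map_M (P : PowerSeries ℤ) :
    PowerSeries.map (PadicInt.toZModPow (p := 5) 15)
      (PowerSeries.map (Int.castRingHom ℤ_[5]) P)
      = PowerSeries.map (Int.castRingHom (ZMod (5 ^ 15))) P := by
  ext n
  simp

theorem coeff_padic (G : PowerSeries ℤ_[5])
    (hG : G * PowerSeries.map (Int.castRingHom ℤ_[5]) DZ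
      = PowerSeries.map (Int.castRingHom ℤ_[5]) NZ) (n : ℕ) :
    ((PowerSeries.coeff n FQ : ℚ) : ℚ_[5]) = ((PowerSeries.coeff n G : ℤ_[5]) : ℚ_[5]) := by
  have h1 := congrArg (PowerSeries.map (Rat.castHom ℚ_[5])) FQ_mul
  have h2 := congrArg (PowerSeries.map (PadicInt.Coe.ringHom (p := 5))) hG
  rw [map_mul, map_map_Q, map_map_Q] at h1
  rw [map_mul, map_map_Z, map_map_Z] at h2
  have hne : PowerSeries.map (Int.castRingHom ℚ_[5]) DZ ≠ 0 := by
    intro h
    have h3 := congrArg (PowerSeries.coeff 0) h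
    rw [PowerSeries.coeff_map, PowerSeries.coeff_zero_eq_constantCoeff_apply, cc_DZ] at h3
    norm_num at h3
  have h4 := mul_right_cancel₀ hne (h1.trans h2.symm)
  have h5 := congrArg (PowerSeries.coeff n) h4
  rw [PowerSeries.coeff_map, PowerSeries.coeff_map] at h5
  exact h5

theorem trunc_eqs (G : PowerSeries ℤ_[5])
    (hG : G * PowerSeries.map (Int.castRingHom ℤ_[5]) DZ
      = PowerSeries.map (Int.castRingHom ℤ_[5]) NZ) :
    PowerSeries.map (PadicInt.toZModPow (p := 5) 15) G *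
      (110592 * Helper13.ASD.E6s ^ 2 - 46656 * Helper13.ASD.E4s ^ 3)
      = 37 * Helper13.ASD.E6s * (Helper13.ASD.E4s ^ 3 - Helper13.ASD.E6s ^ 2) := by
  have h := congrArg (PowerSeries.map (PadicInt.toZModPow (p := 5) 15)) hG
  rw [map_mul, map_map_M, map_map_M] at h
  have e4 : PowerSeries.map (Int.castRingHom (ZMod (5 ^ 15))) E4Z = Helper13.ASD.E4s := by
    rw [E4Z, Helper13.ASD.E4s, map_add, map_one, map_mul, map_ofNat]
    congr 2
  have e6 : PowerSeries.map (Int.castRingHom (ZMod (5 ^ 15))) E6Z = Helper13.ASD.E6s := by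
    rw [E6Z, Helper13.ASD.E6s, map_sub, map_one, map_mul, map_ofNat]
    congr 2
  rw [DZ, NZ] at h
  simp only [map_sub, map_mul, map_pow, map_ofNat, e4, e6] at h
  exact h

/-- Reduction of the left side modulo `5^15`. -/
theorem not_modZero : ¬ ModZero 5 15
    (PowerSeries.coeff 3125 FQ + 19 * PowerSeries.coeff 625 FQ + 570 * PowerSeries.coeff 125 FQ
      - 14250 * PowerSeries.coeff 25 FQ - 296875 * PowerSeries.coeff 5 FQ
      - 9765625 * PowerSeries.coeff 1 FQ) := by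
  obtain ⟨G, hG⟩ := exists_padic
  set x : ℚ := PowerSeries.coeff 3125 FQ + 19 * PowerSeries.coeff 625 FQ
      + 570 * PowerSeries.coeff 125 FQ
      - 14250 * PowerSeries.coeff 25 FQ - 296875 * PowerSeries.coeff 5 FQ
      - 9765625 * PowerSeries.coeff 1 FQ with hx
  set y : ℤ_[5] := PowerSeries.coeff 3125 G + 19 * PowerSeries.coeff 625 G
      + 570 * PowerSeries.coeff 125 G
      - 14250 * PowerSeries.coeff 25 G - 296875 * PowerSeries.coeff 5 G
      - 9765625 * PowerSeries.coeff 1 G with hy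
  have hxy : ((x : ℚ) : ℚ_[5]) = (y : ℚ_[5]) := by
    have h1 : (y : ℚ_[5]) = PadicInt.Coe.ringHom (p := 5) y := rfl
    have h2 : ∀ n, PadicInt.Coe.ringHom (p := 5) (PowerSeries.coeff n G)
        = ((PowerSeries.coeff n FQ : ℚ) : ℚ_[5]) := fun n => (coeff_padic G hG n).symm
    rw [h1, hx, hy]
    simp only [map_add, map_sub, map_mul, map_ofNat, h2]
    push_cast
    ring
  have hred : PadicInt.toZModPow (p := 5) 15 y ≠ 0 := by
    have hv := Helper13.ASD.coeff_values _ (trunc_eqs G hG)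
    simp only [PowerSeries.coeff_map] at hv
    obtain ⟨h1, h2, h3, h4, h5, h6⟩ := hv
    rw [hy]
    simp only [map_sub, map_add, map_mul, map_ofNat, h1, h2, h3, h4, h5, h6]
    have := Helper13.ASD.value_ne
    push_cast at this ⊢
    exact this
  have hnorm : ¬ ‖y‖ ≤ (5 : ℝ) ^ (-(15 : ℕ) : ℤ) := by
    intro h
    apply hred
    rw [← RingHom.mem_ker, PadicInt.ker_toZModPow, ← PadicInt.norm_le_pow_iff_mem_span_pow]
    exact_mod_cast h
  rintro (h | h)
  · apply hnorm
    have : y = 0 := by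
      apply PadicInt.ext
      rw [← hxy, h]
      simp
    rw [this, norm_zero]
    positivity
  · apply hnorm
    have hx0 : x ≠ 0 := by
      intro h0
      rw [h0] at h
      simp at h
    rw [PadicInt.norm_def, ← hxy, Padic.eq_padicNorm, padicNorm.eq_zpow_of_nonzero hx0]
    push_cast
    apply zpow_le_zpow_right₀ (by norm_num)
    linarith

/-- The curve `y^2 + y = x^3 - x` of conductor `37`. -/
def W37 : WeierstrassCurve ℤ := ⟨0, 0, 1, -1, 0⟩

theorem W37_disc : W37.Δ = 37 := by decide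

theorem W37_c4 : W37.c₄ = 48 := by decide

instance ell37 : (W37.map (Int.castRingHom ℚ)).IsElliptic := by
  rw [WeierstrassCurve.isElliptic_iff, WeierstrassCurve.map_Δ, W37_disc]
  norm_num

theorem j37 : (W37.map (Int.castRingHom ℚ)).j = 110592 / 37 := by
  rw [WeierstrassCurve.j, Units.val_inv_eq_inv_val, WeierstrassCurve.coe_Δ',
    WeierstrassCurve.map_Δ, WeierstrassCurve.map_c₄, W37_disc, W37_c4]
  norm_num

theorem val_zero (a b : ℕ) (ha : ¬ 5 ∣ a) (hb : ¬ 5 ∣ b) : padicValRat 5 ((a : ℚ) / (b : ℚ)) = 0 := by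
  have ha0 : a ≠ 0 := by rintro rfl; simp at ha
  have hb0 : b ≠ 0 := by rintro rfl; simp at hb
  rw [padicValRat.div (by exact_mod_cast ha0) (by exact_mod_cast hb0), padicValRat.of_nat,
    padicValRat.of_nat, padicValNat.eq_zero_of_not_dvd ha, padicValNat.eq_zero_of_not_dvd hb]
  simp

theorem val_a : padicValRat 5 (110592 / 37) = 0 := by
  have := val_zero 110592 37 (by norm_num) (by norm_num)
  exact_mod_cast this

theorem val_b : padicValRat 5 (110592 / 37 - 1728) = 0 := by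
  have := val_zero 46656 37 (by norm_num) (by norm_num)
  rw [show (110592 / 37 - 1728 : ℚ) = ((46656 : ℕ) : ℚ) / ((37 : ℕ) : ℚ) by norm_num]
  exact this

theorem count37 : pointCount W37 5 = 8 := by decide

theorem frob37 : IsFrobCoeffs 6 5 (frobTrace W37 5)
    (fun i => if i = 0 then 1 else if i = 1 then 19 else if i = 2 then 570 else
      if i = 3 then -14250 else if i = 4 then -296875 else -9765625) := by
  have ht : frobTrace W37 5 = -2 := by
    rw [frobTrace, count37]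
    norm_num
  rw [ht]
  refine ⟨-1 + 2 * Complex.I, -1 - 2 * Complex.I, ?_, ?_, ?_⟩
  · push_cast
    ring
  · push_cast
    linear_combination (-4 : ℂ) * Complex.I_sq
  · have hI := Complex.I_sq
    have e0 : (-1 + 2 * Complex.I) ^ 4 * (-1 - 2 * Complex.I) ^ 0 = -7 + 24 * Complex.I := by
      linear_combination (16 * Complex.I ^ 2 - 32 * Complex.I + 8) * hI
    have e1 : (-1 + 2 * Complex.I) ^ 3 * (-1 - 2 * Complex.I) ^ 1 = -15 - 20 * Complex.I := by
      linear_combination (-16 * Complex.I ^ 2 + 16 * Complex.I + 16) * hI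
    have e2 : (-1 + 2 * Complex.I) ^ 2 * (-1 - 2 * Complex.I) ^ 2 = 25 := by
      linear_combination (16 * Complex.I ^ 2 - 24) * hI
    have e3 : (-1 + 2 * Complex.I) ^ 1 * (-1 - 2 * Complex.I) ^ 3 = -15 + 20 * Complex.I := by
      linear_combination (-16 * Complex.I ^ 2 - 16 * Complex.I + 16) * hI
    have e4 : (-1 + 2 * Complex.I) ^ 0 * (-1 - 2 * Complex.I) ^ 4 = -7 - 24 * Complex.I := by
      linear_combination (16 * Complex.I ^ 2 + 32 * Complex.I + 8) * hI
    have hC : Polynomial.C Complex.I ^ 2 = (-1 : Polynomial ℂ) := by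
      rw [← map_pow, hI, map_neg, map_one]
    simp only [Finset.prod_range_succ, Finset.prod_range_zero, Finset.sum_range_succ,
      Finset.sum_range_zero, Nat.reduceSub, e0, e1, e2, e3, e4]
    simp only [map_add, map_sub, map_mul, map_neg, map_ofNat, one_mul, zero_add]
    norm_num
    simp only [map_ofNat]
    linear_combination ((Polynomial.X - 25) * (-576 * (Polynomial.X + 15) ^ 2
      - 400 * (Polynomial.X + 7) ^ 2 + 230400 * (Polynomial.C Complex.I ^ 2 - 1))) * hC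

/-- The conjectured congruences are false, even if only primes `p ≥ 5` are allowed: it is not true
that for all `k ∈ {4, 6, 8, 10, 14}`, `1 ≤ r ≤ k - 1`, all elliptic curves `C/ℚ` with
`j(C) ≠ 0, 1728`, all good primes `p ≥ 5` with `v_p(j(C)) = 0 = v_p(j(C) - 1728)`, and all
`n, l ≥ 1`, one has `∑_i c_{p,i} a_{n p^{l-i}}(F) ≡ 0` modulo `p^{(k-1)l - (k-3)k/2 - r}`. -/
theorem result :
    ¬ (∀ k ∈ ({4, 6, 8, 10, 14} : Finset ℕ), ∀ r : ℕ, 1 ≤ r → r ≤ k - 1 →
      ∀ (C : WeierstrassCurve ℚ) [C.IsElliptic], C.j ≠ 0 → C.j ≠ 1728 →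
      ∀ (p : ℕ) [Fact p.Prime], 5 ≤ p →
      ∀ W : WeierstrassCurve ℤ, IsGoodModel C p W →
        padicValRat p C.j = 0 → padicValRat p (C.j - 1728) = 0 →
      ∀ c : ℕ → ℤ, IsFrobCoeffs k p (frobTrace W p) c →
      ∀ n l : ℕ, 1 ≤ n → 1 ≤ l →
        ModZero p (((k : ℤ) - 1) * l - ((k : ℤ) - 3) * k / 2 - r)
          (∑ i ∈ range k, (c i : ℚ) *
            coeffAt (formF k r C.j) ((n : ℚ) * (p : ℚ) ^ ((l : ℤ) - (i : ℤ))))) := by
  intro h
  have h1 := h 6 (by decide) 1 le_rfl (by norm_num) (W37.map (Int.castRingHom ℚ))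
    (by rw [j37]; norm_num) (by rw [j37]; norm_num) 5 le_rfl W37
    ⟨⟨1, one_smul _ _⟩, by rw [W37_disc]; norm_num⟩
    (by rw [j37]; exact val_a) (by rw [j37]; exact val_b) _ frob37 1 5 le_rfl (by norm_num)
  rw [j37, formF_eq] at h1
  have hexp : (((6 : ℕ) : ℤ) - 1) * ((5 : ℕ) : ℤ) - (((6 : ℕ) : ℤ) - 3) * ((6 : ℕ) : ℤ) / 2
      - ((1 : ℕ) : ℤ) = 15 := by norm_num
  rw [hexp] at h1
  apply not_modZero
  convert h1 using 1
  have hc : ∀ m : ℕ, coeffAt ((FQ : PowerSeries ℚ) : LaurentSeries ℚ) ((m : ℕ) : ℚ)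
      = PowerSeries.coeff m FQ := by
    intro m
    rw [coeffAt, if_pos (Rat.den_natCast m), Rat.num_natCast, LaurentSeries.coeff_coe_powerSeries]
  have hx : ∀ i : ℕ, i ≤ 5 → ((1 : ℕ) : ℚ) * ((5 : ℕ) : ℚ) ^ (((5 : ℕ) : ℤ) - (i : ℤ))
      = ((5 ^ (5 - i) : ℕ) : ℚ) := by
    intro i hi
    rw [← Nat.cast_sub hi, zpow_natCast]
    push_cast
    ring
  rw [Finset.sum_range_succ, Finset.sum_range_succ, Finset.sum_range_succ, Finset.sum_range_succ,
    Finset.sum_range_succ, Finset.sum_range_one]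
  rw [hx 0 (by norm_num), hx 1 (by norm_num), hx 2 (by norm_num), hx 3 (by norm_num),
    hx 4 (by norm_num), hx 5 (by norm_num)]
  simp only [hc]
  norm_num
  ring

end Pool.Agent.Results.MP_fb382b_nt.PrimeFive
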